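import Pool.Agent.W341.UG.Stm
import Pool.Agent.H983R2.LG.PrB

/-!
Marginals of the uniform list colouring are at most the inverse of the slack.
-/

set_option autoImplicit false

namespace Pool.Agent.W723.UG

open Finset Pool.Agent.H983R2.GC

theorem t_PRB : Pool.Agent.W341.UG.S_PRB := by
  intro V C _ _ _ _ G c0 R L w a s hs hw h
  unfold pr EE
  have hs0 : (0 : ℝ) < (s : ℝ) := by exact_mod_cast hs
  rcases (Col G c0 R L).eq_empty_or_nonempty with h0 | h0
  · rw [h0]
    simp
  · have hpos : (0 : ℝ) < ((Col G c0 R L).card : ℝ) := by exact_mod_cast Finset.card_pos.2 h0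
    rw [div_le_iff₀ hpos, W_one G c0 R L w hw]
    have hS : SlP G (s - 1) R {w} L := by
      intro x hx
      rw [Finset.mem_singleton] at hx
      subst hx
      omega
    have h1 : ∀ σ ∈ Col G c0 R L, (∑ b ∈ W_A G R L w σ,
        (if Function.update σ w b w = a then (1 : ℝ) else 0)) / ((W_A G R L w σ).card : ℝ) ≤
        1 / (s : ℝ) := by
      intro σ _
      have h2 := W_A_card G (s - 1) R {w} L hS w (Finset.mem_singleton_self w) σ
      have h3 : (s : ℝ) ≤ ((W_A G R L w σ).card : ℝ) := by
        have : s ≤ (W_A G R L w σ).card := by omega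
        exact_mod_cast this
      have h4 : ∑ b ∈ W_A G R L w σ, (if Function.update σ w b w = a then (1 : ℝ) else 0) ≤ 1 := by
        simp only [Function.update_self]
        rw [Finset.sum_ite_eq']
        split_ifs
        · exact le_rfl
        · exact zero_le_one
      exact div_le_div₀ zero_le_one h4 hs0 h3
    refine (Finset.sum_le_sum h1).trans ?_
    rw [Finset.sum_const, nsmul_eq_mul]
    exact le_of_eq (mul_comm _ _)

end Pool.Agent.W723.UG
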